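import Pool.Agent.helper63.TI.SpecA

/-!
# Row AP3 of project ti (MP_3703a7_ag): logarithms are approximated
-/

set_option autoImplicit false

namespace Pool.Agent.TI

open Polynomial NumberField Pool.Agent.GJ Pool.Agent.TK Pool.Agent.TQ Pool.Agent.TFQ Pool.Agent.TD Pool.Agent.AQ
open Pool.Agent.FJ (VT Om chiO IsFrobO rf rs)
open scoped TensorProduct

noncomputable section

theorem AP3 (hAP1 : AP1_stmt) (hNA1 : TQ.NA1_stmt) : AP3_stmt := by
  intro q _ k V _ _ G _ T ρ G' hT hfin g A hA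
  obtain ⟨m0, hm0, hg⟩ := hfin g
  have hq : (q : ℚ_[q]) ≠ 0 := by
    have := (Fact.out : q.Prime).pos
    exact_mod_cast this.ne'
  have h1 : Ap T ρ G' ((m0 : ℚ_[q]) • A) := by
    intro m
    refine ⟨m, fun N hN => ⟨(g ^ m0) ^ q ^ N, G'.pow_mem hg _, fun i => ?_⟩⟩
    have h2 := (hNA1 q (V i) (T i) (hT i)).2.2.1 (ρ i g) (A i) m0 (hA i)
    intro t ht
    obtain ⟨t', ht', h3⟩ := h2.log N t ht
    refine ⟨(q : ℚ_[q]) ^ (N - m) • t', ?_, ?_⟩
    · obtain ⟨n, b, hb⟩ := hT i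
      rw [hb] at ht' ⊢
      intro j
      rw [map_smul, Finsupp.smul_apply, smul_eq_mul, norm_mul, norm_pow]
      have e1 : ‖(q : ℚ_[q])‖ ^ (N - m) ≤ 1 := pow_le_one₀ (norm_nonneg _) (by
        have := Padic.norm_int_le_one (p := q) (q : ℤ)
        exact_mod_cast this)
      exact mul_le_one₀ e1 (norm_nonneg _) (ht' j)
    · rw [map_pow, map_pow, h3, smul_smul, ← pow_mul, ← pow_add]
      have e2 : N * 2 = N + m + (N - m) := by omega
      rw [e2]
      rfl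
  have h2 := (hAP1 q k V G T ρ G' hT).2.2 ((m0 : ℚ_[q])⁻¹) _ h1
  have hm : (m0 : ℚ_[q]) ≠ 0 := by exact_mod_cast hm0.ne'
  rw [smul_smul, inv_mul_cancel₀ hm, one_smul] at h2
  exact h2

end

end Pool.Agent.TI
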